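import Mathlib

/-!
# Ehrhart's volume conjecture, algebraic part

For a finite set `A ⊆ ℕᵈ` of exponents we produce, over a field of characteristic `p`, a product
of polynomials with exponents in `A` vanishing to high order at `(1, …, 1)` and with leading
exponent `∑ A`; folding exponents modulo `q = pᵉ` bounds the order of vanishing.
-/

set_option autoImplicit false

open MvPolynomial
open scoped Pointwise

namespace Pool.Agent.H912R3.Ehr

variable {d : ℕ} {F : Type} [Field F]

/-- the substitution `X_i ↦ X_i + 1` -/
noncomputable def tau : MvPolynomial (Fin d) F →ₐ[F] MvPolynomial (Fin d) F :=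
  aeval (fun i => X i + 1)

/-- the inverse substitution -/
noncomputable def tau' : MvPolynomial (Fin d) F →ₐ[F] MvPolynomial (Fin d) F :=
  aeval (fun i => X i - 1)

theorem tau'_tau (s : MvPolynomial (Fin d) F) : tau' (tau s) = s := by
  have h : (tau'.comp tau : MvPolynomial (Fin d) F →ₐ[F] MvPolynomial (Fin d) F) =
      AlgHom.id F _ := by
    apply MvPolynomial.algHom_ext
    intro i
    simp [tau, tau']
  exact DFunLike.congr_fun h s

/-- `s` vanishes to order at least `j` at `(1, …, 1)` -/
def Van (j : ℕ) (s : MvPolynomial (Fin d) F) : Prop :=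
  ∀ m : Fin d →₀ ℕ, m.degree < j → coeff m (tau s) = 0

theorem Van.mul {j j' : ℕ} {s s' : MvPolynomial (Fin d) F} (h : Van j s) (h' : Van j' s') :
    Van (j + j') (s * s') := by
  intro m hm
  rw [map_mul, coeff_mul]
  refine Finset.sum_eq_zero fun x hx => ?_
  rw [Finset.HasAntidiagonal.mem_antidiagonal] at hx
  have hd : x.1.degree + x.2.degree = m.degree := by rw [← hx, map_add]
  by_cases h1 : x.1.degree < j
  · rw [h _ h1, zero_mul]
  · rw [h' x.2 (by omega), mul_zero]

theorem Van.one : Van 0 (1 : MvPolynomial (Fin d) F) := fun _ hm => absurd hm (Nat.not_lt_zero _)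

theorem Van.mono {j j' : ℕ} {s : MvPolynomial (Fin d) F} (h : Van j s) (hj : j' ≤ j) : Van j' s :=
  fun m hm => h m (lt_of_lt_of_le hm hj)

theorem Van.pow {j : ℕ} {s : MvPolynomial (Fin d) F} (h : Van j s) (a : ℕ) :
    Van (a * j) (s ^ a) := by
  induction a with
  | zero => simpa using Van.one
  | succ a ih =>
    rw [pow_succ, Nat.add_mul, one_mul]
    exact ih.mul h

theorem Van.prod {ι : Type*} (T : Finset ι) (j : ι → ℕ) (s : ι → MvPolynomial (Fin d) F)
    (h : ∀ i ∈ T, Van (j i) (s i)) : Van (∑ i ∈ T, j i) (∏ i ∈ T, s i) := by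
  classical
  induction T using Finset.induction_on with
  | empty => simpa using Van.one
  | insert i T hi ih =>
    rw [Finset.sum_insert hi, Finset.prod_insert hi]
    exact (h i (Finset.mem_insert_self _ _)).mul (ih fun k hk => h k (Finset.mem_insert_of_mem hk))

/-- the class of an exponent modulo `q` -/
def cls (q : ℕ) (m : Fin d →₀ ℕ) : Fin d → ZMod q := fun i => (m i : ZMod q)

/-- folding of exponents modulo `q` -/
noncomputable def fold (q : ℕ) (r : Fin d → ZMod q) : MvPolynomial (Fin d) F →ₗ[F] F := by
  classical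
  exact (MvPolynomial.basisMonomials (Fin d) F).constr F fun m => if cls q m = r then 1 else 0

theorem fold_monomial (q : ℕ) (r : Fin d → ZMod q) (m : Fin d →₀ ℕ) (c : F) [Decidable (cls q m = r)] :
    fold q r (monomial m c) = if cls q m = r then c else 0 := by
  have h1 : (monomial m c : MvPolynomial (Fin d) F) = c • monomial m 1 := by
    rw [smul_monomial, smul_eq_mul, mul_one]
  rw [h1, map_smul]
  have h2 : (monomial m (1 : F) : MvPolynomial (Fin d) F) = basisMonomials (Fin d) F m := rfl
  rw [h2, fold, Module.Basis.constr_basis]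
  split_ifs <;> simp

theorem fold_X_pow_mul (q : ℕ) (r : Fin d → ZMod q) (i : Fin d) (h : MvPolynomial (Fin d) F) :
    fold q r (X i ^ q * h) = fold q r h := by
  classical
  induction h using MvPolynomial.induction_on' with
  | monomial m c =>
    rw [X_pow_eq_monomial, monomial_mul, one_mul, fold_monomial, fold_monomial]
    have : cls q (Finsupp.single i q + m) = cls q m := by
      funext k
      simp only [cls, Finsupp.add_apply, Nat.cast_add]
      by_cases hk : i = k
      · subst hk; simp
      · simp [hk]
    rw [this]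
  | add p q' hp hq' =>
    rw [mul_add, map_add, hp, hq', map_add]

theorem fold_apply (q : ℕ) (r : Fin d → ZMod q) (g : MvPolynomial (Fin d) F) (m0 : Fin d →₀ ℕ)
    (hr : cls q m0 = r) (h : ∀ m ∈ g.support, cls q m = r → m = m0) :
    fold q r g = coeff m0 g := by
  classical
  conv_lhs => rw [g.as_sum]
  rw [map_sum]
  rw [Finset.sum_eq_single m0]
  · rw [fold_monomial, if_pos hr]
  · intro m hm hne
    rw [fold_monomial, if_neg]
    intro hc
    exact hne (h m hm hc)
  · intro h0
    rw [MvPolynomial.notMem_support_iff.1 h0, map_zero, map_zero]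

/-- high order of vanishing makes all folded coefficients vanish -/
theorem fold_eq_zero {p : ℕ} [Fact p.Prime] [CharP F p] (e q : ℕ) (hq : q = p ^ e)
    (r : Fin d → ZMod q)
    (g : MvPolynomial (Fin d) F) (hg : Van (d * (q - 1) + 1) g) : fold q r g = 0 := by
  classical
  have hq0 : 0 < q := by rw [hq]; exact pow_pos (Fact.out : p.Prime).pos e
  have hkey : ∀ (m : Fin d →₀ ℕ), d * (q - 1) + 1 ≤ m.degree →
      fold q r (∏ i, ((X i : MvPolynomial (Fin d) F) - 1) ^ (m i)) = 0 := by
    intro m hm
    obtain ⟨i, hi⟩ : ∃ i, q ≤ m i := by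
      by_contra hcon
      push Not at hcon
      have h1 : m.degree ≤ ∑ _i : Fin d, (q - 1) := by
        rw [Finsupp.degree_eq_sum]
        exact Finset.sum_le_sum fun i _ => by have := hcon i; omega
      simp only [Finset.sum_const, Finset.card_univ, Fintype.card_fin, smul_eq_mul] at h1
      omega
    rw [← Finset.mul_prod_erase _ _ (Finset.mem_univ i)]
    have h2 : ((X i : MvPolynomial (Fin d) F) - 1) ^ (m i) =
        (X i ^ q - 1) * ((X i : MvPolynomial (Fin d) F) - 1) ^ (m i - q) := by
      have h3 : ((X i : MvPolynomial (Fin d) F) - 1) ^ q = X i ^ q - 1 := by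
        rw [hq, sub_pow_char_pow, one_pow]
      rw [← h3, ← pow_add]
      congr 1
      omega
    rw [h2, mul_assoc, sub_mul, one_mul, map_sub, fold_X_pow_mul, sub_self]
  have hexp : g = ∑ m ∈ (tau g).support, coeff m (tau g) • ∏ i, ((X i : MvPolynomial (Fin d) F) - 1) ^ (m i) := by
    conv_lhs => rw [← tau'_tau g]
    rw [tau', MvPolynomial.aeval_def, MvPolynomial.eval₂_eq']
    refine Finset.sum_congr rfl fun m _ => ?_
    rw [Algebra.smul_def]
  rw [hexp, map_sum]
  refine Finset.sum_eq_zero fun m hm => ?_
  rw [map_smul]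
  by_cases hmd : m.degree < d * (q - 1) + 1
  · rw [hg m hmd, zero_smul]
  · rw [hkey m (by omega), smul_zero]

end Pool.Agent.H912R3.Ehr
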