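import Pool.Agent.H912R3.Ehr.Fam

/-!
# Ehrhart's volume conjecture: the discrete inequality for the points of `(1/k) ℤᵈ` in `K`
-/

set_option autoImplicit false

open scoped Pointwise
open Set

namespace Pool.Agent.H912R3.Ehr

variable {d : ℕ}

/-- the point of `(1/k) ℤᵈ` attached to an exponent -/
noncomputable def pt (k B : ℕ) (m : Fin d →₀ ℕ) : Fin d → ℝ :=
  (k : ℝ)⁻¹ • toR m - fun _ => (B : ℝ)

theorem toR_injective : Function.Injective (toR : (Fin d →₀ ℕ) → Fin d → ℝ) := by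
  intro m m' h
  ext i
  have := congrFun h i
  simpa [toR] using this

theorem pt_injective {k : ℕ} (hk : 1 ≤ k) (B : ℕ) :
    Function.Injective (pt k B : (Fin d →₀ ℕ) → Fin d → ℝ) := by
  intro m m' h
  unfold pt at h
  have h1 := sub_left_injective h
  have hk' : (k : ℝ)⁻¹ ≠ 0 := by positivity
  exact toR_injective (smul_right_injective _ hk' h1)

/-- the exponents of the points in `K` -/
def Aset (K : Set (Fin d → ℝ)) (k B : ℕ) : Set (Fin d →₀ ℕ) := {m | pt k B m ∈ K}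

theorem Aset_finite {K : Set (Fin d → ℝ)} {k B : ℕ} (hk : 1 ≤ k)
    (hB : ∀ x ∈ K, ∀ i, |x i| ≤ B) : (Aset K k B).Finite := by
  refine Set.Finite.subset (Finset.finite_toSet
    (Finset.Iic (Finsupp.equivFunOnFinite.symm fun _ : Fin d => 2 * k * B))) ?_
  intro m hm
  rw [Finset.coe_Iic, Set.mem_Iic]
  intro i
  have h1 := hB _ hm i
  have h2 := (abs_le.1 h1).2
  simp only [pt, Pi.sub_apply, Pi.smul_apply, smul_eq_mul, toR] at h2
  have hk' : (0 : ℝ) < k := by positivity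
  have h3 : (m i : ℝ) ≤ 2 * k * B := by
    have : (k : ℝ)⁻¹ * (m i) ≤ 2 * B := by linarith
    rw [inv_mul_le_iff₀ hk'] at this
    linarith
  show m i ≤ 2 * k * B
  exact_mod_cast h3

noncomputable def AA (K : Set (Fin d → ℝ)) (k B : ℕ) (hk : 1 ≤ k)
    (hB : ∀ x ∈ K, ∀ i, |x i| ≤ B) : Finset (Fin d →₀ ℕ) := (Aset_finite hk hB).toFinset

theorem mem_AA {K : Set (Fin d → ℝ)} {k B : ℕ} {hk : 1 ≤ k}
    {hB : ∀ x ∈ K, ∀ i, |x i| ≤ B} {m : Fin d →₀ ℕ} : m ∈ AA K k B hk hB ↔ pt k B m ∈ K := by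
  rw [AA, Set.Finite.mem_toFinset]; rfl

/-- the discrete inequality -/
theorem disc (hd : 1 ≤ d) {K : Set (Fin d → ℝ)} (hKc : Convex ℝ K)
    (hL : ∀ z : Fin d → ℤ, (fun i => (z i : ℝ)) ∈ interior K → z = 0)
    {k B : ℕ} (hk : 1 ≤ k) (hB : ∀ x ∈ K, ∀ i, |x i| ≤ B) {ε δ : ℝ} (hε : 0 < ε) (hε1 : ε < 1)
    (hδ : 0 < δ) (hball : Metric.ball (0 : Fin d → ℝ) δ ⊆ K)
    (A : Finset (Fin d →₀ ℕ)) (hAdef : A = AA K k B hk hB) (hA0 : 0 < A.card)
    (hc : ‖((A.card : ℝ)⁻¹) • ∑ m ∈ A, pt k B m‖ < ε * δ)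
    (e q a J : ℕ) (hq : q = 2 ^ e) (ha : (a : ℝ) * (A.card * k) ≤ (1 - ε) * q) :
    a * (J * A.card) ≤ a * (J + d).choose (d + 1) + d * (q - 1) := by
  have : Fact (Nat.Prime 2) := ⟨Nat.prime_two⟩
  set c : Fin d → ℝ := ((A.card : ℝ)⁻¹) • ∑ m ∈ A, pt k B m with hcdef
  have hk' : (0 : ℝ) < k := by positivity
  have hN' : (0 : ℝ) < A.card := by exact_mod_cast hA0
  set C : Set (Fin d → ℝ) := {y | (k : ℝ)⁻¹ • y - (fun _ => (B : ℝ)) ∈ K} with hCdef
  have hCc : Convex ℝ C := by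
    intro x hx y hy p r hp hr hpr
    show (k : ℝ)⁻¹ • (p • x + r • y) - (fun _ => (B : ℝ)) ∈ K
    have h1 := hKc hx hy hp hr hpr
    convert h1 using 1
    funext i
    simp only [Pi.sub_apply, Pi.smul_apply, Pi.add_apply, smul_eq_mul]
    have : (B : ℝ) = p * B + r * B := by rw [← add_mul, hpr, one_mul]
    linear_combination (-1 : ℝ) * this
  have h0 : (0 : Fin d → ℝ) ∈ K := hball (Metric.mem_ball_self hδ)
  have hCn : C.Nonempty := by
    refine ⟨(k : ℝ) • fun _ => (B : ℝ), ?_⟩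
    show (k : ℝ)⁻¹ • ((k : ℝ) • fun _ => (B : ℝ)) - (fun _ => (B : ℝ)) ∈ K
    rw [smul_smul, inv_mul_cancel₀ hk'.ne', one_smul, sub_self]
    exact h0
  have hAC : ∀ l ∈ A, toR l ∈ C := by
    intro l hl
    rw [hAdef, mem_AA] at hl
    exact hl
  refine key (p := 2) hd A C hCc hCn hAC e q a J hq ?_
  intro m hm hcl
  obtain ⟨y, hy, hym⟩ := hm
  have hyK : (k : ℝ)⁻¹ • y - (fun _ => (B : ℝ)) ∈ K := hy
  set Y : Fin d → ℝ := (k : ℝ)⁻¹ • y - (fun _ => (B : ℝ)) with hY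
  set Λ : Fin d →₀ ℕ := ∑ l ∈ A, l with hΛ
  have hq0 : 0 < q := by rw [hq]; positivity
  have hq' : (0 : ℝ) < q := by exact_mod_cast hq0
  -- coordinates of `Λ`
  have hΛc : ∀ i, (Λ i : ℝ) = k * A.card * (c i + B) := by
    intro i
    have h1 : c i = (A.card : ℝ)⁻¹ * ∑ m ∈ A, ((k : ℝ)⁻¹ * (m i : ℝ) - B) := by
      rw [hcdef, Pi.smul_apply, smul_eq_mul, Finset.sum_apply]
      rfl
    have h2 : (Λ i : ℝ) = ∑ m ∈ A, (m i : ℝ) := by
      rw [hΛ, Finsupp.finsetSum_apply]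
      push_cast
      rfl
    rw [h1, Finset.sum_sub_distrib, ← Finset.mul_sum, ← h2, Finset.sum_const, nsmul_eq_mul]
    field_simp
    ring
  -- the integer vector
  have hdiv : ∀ i, ∃ z : ℤ, ((m i : ℤ) - (a * Λ i : ℕ) : ℤ) = q * z := by
    intro i
    have h1 : (m i : ZMod q) = ((a * Λ i : ℕ) : ZMod q) := congrFun hcl i
    have h2 : (((m i : ℤ) - ((a * Λ i : ℕ) : ℤ) : ℤ) : ZMod q) = 0 := by
      rw [Int.cast_sub, Int.cast_natCast, Int.cast_natCast, h1, sub_self]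
    rw [ZMod.intCast_zmod_eq_zero_iff_dvd] at h2
    exact h2
  choose z hz using hdiv
  have hzr : (fun i => (z i : ℝ)) = ((a : ℝ) * A.card * k / q) • (Y - c) := by
    funext i
    have h1 : ((m i : ℝ) - a * Λ i) = q * z i := by
      have := hz i
      have h2 : (((m i : ℤ) - ((a * Λ i : ℕ) : ℤ) : ℤ) : ℝ) = ((q * z i : ℤ) : ℝ) := by rw [this]
      push_cast at h2
      exact h2
    have h3 : (m i : ℝ) = a * A.card * y i := by
      have := congrFun hym i
      simp only [Pi.smul_apply, smul_eq_mul, toR] at this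
      rw [← this]; push_cast; ring
    have h4 : Y i = (k : ℝ)⁻¹ * y i - B := rfl
    have h5 : y i = k * (Y i + B) := by
      rw [h4]; field_simp; ring
    simp only [Pi.smul_apply, Pi.sub_apply, smul_eq_mul]
    rw [div_mul_eq_mul_div, eq_div_iff hq'.ne', mul_comm (z i : ℝ), ← h1, h3, hΛc i, h5]
    ring
  set θ : ℝ := (a : ℝ) * A.card * k / q with hθ
  have hθ0 : 0 ≤ θ := by positivity
  have hθ1 : θ ≤ 1 - ε := by
    rw [hθ, div_le_iff₀ hq']
    linarith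
  have hint : (fun i => (z i : ℝ)) ∈ interior K := by
    rw [hzr]
    have h1 : 0 < 1 - θ := by linarith
    have h2 : θ • (Y - c) = θ • Y + (1 - θ) • (-(θ / (1 - θ)) • c) := by
      rw [smul_smul, mul_neg, mul_div_cancel₀ _ h1.ne', smul_sub, neg_smul]
      abel
    rw [h2]
    have h3 : (-(θ / (1 - θ)) • c) ∈ interior K := by
      have hb : Metric.ball (0 : Fin d → ℝ) δ ⊆ interior K :=
        interior_maximal hball Metric.isOpen_ball
      apply hb
      rw [mem_ball_zero_iff, norm_smul, norm_neg, Real.norm_eq_abs, abs_of_nonneg (by positivity)]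
      have h4 : θ / (1 - θ) ≤ 1 / ε := by
        apply div_le_div₀ zero_le_one (by linarith) hε (by linarith)
      calc θ / (1 - θ) * ‖c‖ ≤ 1 / ε * ‖c‖ := mul_le_mul_of_nonneg_right h4 (norm_nonneg _)
        _ < 1 / ε * (ε * δ) := by
            apply mul_lt_mul_of_pos_left hc (by positivity)
        _ = δ := by field_simp
    exact hKc.combo_self_interior_mem_interior hyK h3 hθ0 h1 (by ring)
  have hz0 := hL z hint
  ext i
  have h1 := hz i
  rw [hz0] at h1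
  simp only [Pi.zero_apply, mul_zero] at h1
  have h2 : (m i : ℤ) = ((a * Λ i : ℕ) : ℤ) := by linarith
  have h3 : m i = a * Λ i := by exact_mod_cast h2
  rw [h3]
  rfl

end Pool.Agent.H912R3.Ehr
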