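import Pool.Agent.H912R3.Ehr.Alg

/-!
# Ehrhart's volume conjecture: the family of polynomials
-/

set_option autoImplicit false

open MvPolynomial
open scoped Pointwise

namespace Pool.Agent.H912R3.Ehr

variable {d : ℕ} {F : Type} [Field F]

/-- exponents of degree `< j` -/
noncomputable def low (d j : ℕ) : Finset (Fin d →₀ ℕ) :=
  (Finset.range j).biUnion fun i => (Finset.univ : Finset (Fin d)).finsuppAntidiag i

theorem mem_low {j : ℕ} {m : Fin d →₀ ℕ} : m ∈ low d j ↔ m.degree < j := by
  unfold low
  simp only [Finset.mem_biUnion, Finset.mem_range, Finset.mem_finsuppAntidiag]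
  constructor
  · rintro ⟨i, hi, h, -⟩
    rw [Finsupp.degree_eq_sum, h]
    exact hi
  · intro h
    exact ⟨m.degree, h, by rw [Finsupp.degree_eq_sum], Finset.subset_univ _⟩

theorem card_low (hd : 1 ≤ d) (j : ℕ) : (low d (j + 1)).card ≤ (j + d).choose d := by
  unfold low
  refine Finset.card_biUnion_le.trans ?_
  have h1 : ∀ i ∈ Finset.range (j + 1), ((Finset.univ : Finset (Fin d)).finsuppAntidiag i).card =
      (i + (d - 1)).choose (d - 1) := by
    intro i _
    rw [Finset.card_finsuppAntidiag_nat_eq_choose, Finset.card_univ, Fintype.card_fin]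
    have : d + i - 1 = i + (d - 1) := by omega
    rw [this, Nat.choose_symm_add]
  rw [Finset.sum_congr rfl h1, Nat.sum_range_add_choose]
  have : j + (d - 1) + 1 = j + d := by omega
  rw [this, Nat.sub_add_cancel hd]

/-- the lexicographic order -/
noncomputable abbrev mo (d : ℕ) : MonomialOrder (Fin d) := MonomialOrder.lex

/-- the polynomials with exponents in `A`, leading exponent `l` and vanishing order at least `j` -/
def Good (F : Type) [Field F] (A : Finset (Fin d →₀ ℕ)) (j : ℕ) (l : Fin d →₀ ℕ)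
    (s : MvPolynomial (Fin d) F) : Prop :=
  s ≠ 0 ∧ s.support ⊆ A ∧ (mo d).degree s = l ∧ Van j s

theorem count (A : Finset (Fin d →₀ ℕ)) (j : ℕ) (D : Finset (Fin d →₀ ℕ))
    (hD : ∀ l ∈ A, (∃ s, Good F A j l s) → l ∈ D) : A.card ≤ D.card + (low d j).card := by
  classical
  by_contra hcon
  push Not at hcon
  let P : (A → F) →ₗ[F] MvPolynomial (Fin d) F :=
    Fintype.linearCombination F (fun l : A => (monomial (l : Fin d →₀ ℕ) (1 : F)))
  have hP : ∀ v : A → F, P v = ∑ l : A, monomial (l : Fin d →₀ ℕ) (v l) := by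
    intro v
    rw [Fintype.linearCombination_apply]
    refine Finset.sum_congr rfl fun l _ => ?_
    rw [smul_monomial, smul_eq_mul, mul_one]
  have hPc : ∀ (v : A → F) (l : A), coeff (l : Fin d →₀ ℕ) (P v) = v l := by
    intro v l
    rw [hP, coeff_sum, Finset.sum_eq_single l]
    · rw [coeff_monomial, if_pos rfl]
    · intro l' _ hl'
      rw [coeff_monomial, if_neg]
      exact fun h => hl' (Subtype.ext h)
    · intro h; exact absurd (Finset.mem_univ _) h
  have hPs : ∀ (v : A → F), (P v).support ⊆ A := by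
    intro v m hm
    by_contra hmA
    rw [mem_support_iff] at hm
    apply hm
    rw [hP, coeff_sum]
    refine Finset.sum_eq_zero fun l _ => ?_
    rw [coeff_monomial, if_neg]
    intro h
    exact hmA (h ▸ l.2)
  let L : (A → F) →ₗ[F] ((D → F) × (low d j → F)) :=
    LinearMap.prod
      (LinearMap.pi fun m : D => (lcoeff F (m : Fin d →₀ ℕ)).comp P)
      (LinearMap.pi fun m : low d j => (lcoeff F (m : Fin d →₀ ℕ)).comp (tau.toLinearMap.comp P))
  have hrank : Module.finrank F ((D → F) × (low d j → F)) < Module.finrank F (A → F) := by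
    rw [Module.finrank_prod, Module.finrank_fintype_fun_eq_card,
      Module.finrank_fintype_fun_eq_card, Module.finrank_fintype_fun_eq_card,
      Fintype.card_coe, Fintype.card_coe, Fintype.card_coe]
    exact hcon
  have hker := LinearMap.ker_ne_bot_of_finrank_lt (f := L) hrank
  obtain ⟨v, hv, hv0⟩ := (Submodule.ne_bot_iff _).1 hker
  rw [LinearMap.mem_ker] at hv
  have h1 : ∀ m ∈ D, coeff m (P v) = 0 := by
    intro m hm
    have := congrFun (congrArg Prod.fst hv) ⟨m, hm⟩
    exact this
  have h2 : Van j (P v) := by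
    intro m hm
    have := congrFun (congrArg Prod.snd hv) ⟨m, mem_low.2 hm⟩
    exact this
  have hne : P v ≠ 0 := by
    intro h
    apply hv0
    funext l
    rw [← hPc v l, h, coeff_zero]
    rfl
  have hdeg : (mo d).degree (P v) ∈ (P v).support := (mo d).degree_mem_support hne
  have hDm := hD _ (hPs v hdeg) ⟨P v, hne, hPs v, rfl, h2⟩
  exact (mem_support_iff.1 hdeg) (h1 _ hDm)

theorem exists_family (hd : 1 ≤ d) (A : Finset (Fin d →₀ ℕ)) (J : ℕ) :
    ∃ (s : (Fin d →₀ ℕ) → MvPolynomial (Fin d) F) (jj : (Fin d →₀ ℕ) → ℕ),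
      (∀ l ∈ A, Good F A (jj l) l (s l)) ∧
      J * A.card ≤ ∑ l ∈ A, jj l + (J + d).choose (d + 1) := by
  classical
  let P : ℕ → (Fin d →₀ ℕ) → Prop := fun j l => ∃ s, Good F A j l s
  have hP0 : ∀ l ∈ A, P 0 l := by
    intro l hl
    refine ⟨monomial l 1, ?_, ?_, ?_, fun _ hm => absurd hm (Nat.not_lt_zero _)⟩
    · exact fun h => one_ne_zero ((monomial_eq_zero).1 h)
    · intro m hm
      have := support_monomial_subset hm
      rw [Finset.mem_singleton] at this
      rw [this]; exact hl
    · rw [(mo d).degree_monomial, if_neg one_ne_zero]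
  let jj : (Fin d →₀ ℕ) → ℕ := fun l => Nat.findGreatest (fun j => P j l) J
  have hjj : ∀ l ∈ A, P (jj l) l := fun l hl =>
    Nat.findGreatest_spec (P := fun j => P j l) (Nat.zero_le J) (hP0 l hl)
  choose! s hs using hjj
  refine ⟨s, jj, hs, ?_⟩
  -- counting
  have hcount : ∀ j ∈ Finset.range J, A.card ≤ (A.filter fun l => P (j + 1) l).card +
      (j + d).choose d := by
    intro j _
    have h1 := count (F := F) A (j + 1) (A.filter fun l => P (j + 1) l)
      (fun l hl h => Finset.mem_filter.2 ⟨hl, h⟩)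
    exact h1.trans (Nat.add_le_add_left (card_low hd j) _)
  have h2 : ∀ l ∈ A, ((Finset.range J).filter fun j => P (j + 1) l).card ≤ jj l := by
    intro l _
    have : ((Finset.range J).filter fun j => P (j + 1) l) ⊆ Finset.range (jj l) := by
      intro j hj
      rw [Finset.mem_filter, Finset.mem_range] at hj
      rw [Finset.mem_range]
      exact Nat.le_findGreatest (by omega) hj.2
    exact (Finset.card_le_card this).trans (by rw [Finset.card_range])
  calc J * A.card = ∑ _j ∈ Finset.range J, A.card := by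
        rw [Finset.sum_const, Finset.card_range, smul_eq_mul]
    _ ≤ ∑ j ∈ Finset.range J, ((A.filter fun l => P (j + 1) l).card + (j + d).choose d) :=
        Finset.sum_le_sum hcount
    _ = ∑ j ∈ Finset.range J, (A.filter fun l => P (j + 1) l).card +
          ∑ j ∈ Finset.range J, (j + d).choose d := Finset.sum_add_distrib
    _ ≤ _ := by
        refine Nat.add_le_add ?_ ?_
        · calc ∑ j ∈ Finset.range J, (A.filter fun l => P (j + 1) l).card
              = ∑ j ∈ Finset.range J, ∑ l ∈ A, (if P (j + 1) l then 1 else 0) := by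
                refine Finset.sum_congr rfl fun j _ => ?_
                rw [Finset.card_filter]
            _ = ∑ l ∈ A, ∑ j ∈ Finset.range J, (if P (j + 1) l then 1 else 0) :=
                Finset.sum_comm
            _ = ∑ l ∈ A, ((Finset.range J).filter fun j => P (j + 1) l).card := by
                refine Finset.sum_congr rfl fun l _ => ?_
                rw [Finset.card_filter]
            _ ≤ ∑ l ∈ A, jj l := Finset.sum_le_sum h2
        · rcases Nat.eq_zero_or_pos J with rfl | hJ
          · simp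
          · obtain ⟨J', rfl⟩ := Nat.exists_eq_succ_of_ne_zero hJ.ne'
            rw [Nat.succ_eq_add_one, Nat.sum_range_add_choose]
            apply le_of_eq
            congr 1
            omega

/-- real vector of an exponent -/
def toR (m : Fin d →₀ ℕ) : Fin d → ℝ := fun i => (m i : ℝ)

theorem toR_add (m m' : Fin d →₀ ℕ) : toR (m + m') = toR m + toR m' := by
  funext i; simp [toR]

/-- all exponents of `g` lie in `n C` -/
def Supp (C : Set (Fin d → ℝ)) (n : ℕ) (g : MvPolynomial (Fin d) F) : Prop :=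
  ∀ m ∈ g.support, toR m ∈ (n : ℝ) • C

theorem Supp.mul {C : Set (Fin d → ℝ)} (hC : Convex ℝ C) {n n' : ℕ}
    {g g' : MvPolynomial (Fin d) F} (h : Supp C n g) (h' : Supp C n' g') :
    Supp C (n + n') (g * g') := by
  classical
  intro m hm
  have h1 := support_mul g g' hm
  obtain ⟨x, hx, y, hy, rfl⟩ := Finset.mem_add.1 h1
  rw [Nat.cast_add, hC.add_smul (Nat.cast_nonneg _) (Nat.cast_nonneg _), toR_add]
  exact Set.add_mem_add (h x hx) (h' y hy)

theorem Supp.one {C : Set (Fin d → ℝ)} (hC : C.Nonempty) :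
    Supp C 0 (1 : MvPolynomial (Fin d) F) := by
  classical
  intro m hm
  have h1 : m = 0 := by
    rw [mem_support_iff, coeff_one] at hm
    by_contra h
    exact hm (if_neg fun h' => h h'.symm)
  subst h1
  rw [Nat.cast_zero, Set.zero_smul_set hC]
  have : toR (0 : Fin d →₀ ℕ) = 0 := by funext i; simp [toR]
  rw [this]
  exact Set.mem_singleton _

theorem Supp.pow {C : Set (Fin d → ℝ)} (hC : Convex ℝ C) (hC' : C.Nonempty) {n : ℕ}
    {g : MvPolynomial (Fin d) F} (h : Supp C n g) (a : ℕ) : Supp C (a * n) (g ^ a) := by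
  induction a with
  | zero => simpa using Supp.one hC'
  | succ a ih =>
    rw [pow_succ, Nat.add_mul, one_mul]
    exact ih.mul hC h

theorem Supp.prod {C : Set (Fin d → ℝ)} (hC : Convex ℝ C) (hC' : C.Nonempty) {ι : Type*}
    (T : Finset ι) (s : ι → MvPolynomial (Fin d) F)
    (h : ∀ i ∈ T, Supp C 1 (s i)) : Supp C T.card (∏ i ∈ T, s i) := by
  classical
  induction T using Finset.induction_on with
  | empty => simpa using Supp.one hC'
  | insert i T hi ih =>
    rw [Finset.card_insert_of_notMem hi, Finset.prod_insert hi, add_comm]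
    exact (h i (Finset.mem_insert_self _ _)).mul hC
      (ih fun k hk => h k (Finset.mem_insert_of_mem hk))

/-- **The key inequality.** -/
theorem key {p : ℕ} [Fact p.Prime] (hd : 1 ≤ d) (A : Finset (Fin d →₀ ℕ))
    (C : Set (Fin d → ℝ)) (hC : Convex ℝ C) (hC' : C.Nonempty) (hA : ∀ l ∈ A, toR l ∈ C)
    (e q a J : ℕ) (hq : q = p ^ e)
    (huniq : ∀ m : Fin d →₀ ℕ, toR m ∈ ((a * A.card : ℕ) : ℝ) • C →
      cls q m = cls q (a • ∑ l ∈ A, l) → m = a • ∑ l ∈ A, l) :
    a * (J * A.card) ≤ a * (J + d).choose (d + 1) + d * (q - 1) := by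
  classical
  obtain ⟨s, jj, hs, hJ⟩ := exists_family (F := ZMod p) hd A J
  set f : MvPolynomial (Fin d) (ZMod p) := ∏ l ∈ A, s l with hf
  set g := f ^ a with hg
  have hfne : f ≠ 0 := Finset.prod_ne_zero_iff.2 fun l hl => (hs l hl).1
  have hgne : g ≠ 0 := pow_ne_zero _ hfne
  have hfd : (mo d).degree f = ∑ l ∈ A, l := by
    rw [hf, (mo d).degree_prod fun l hl => (hs l hl).1]
    exact Finset.sum_congr rfl fun l hl => (hs l hl).2.2.1
  have hgd : (mo d).degree g = a • ∑ l ∈ A, l := by
    rw [hg, (mo d).degree_pow, hfd]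
  have hgc : coeff (a • ∑ l ∈ A, l) g ≠ 0 := by
    rw [← hgd]
    exact (mo d).coeff_degree_ne_zero_iff.2 hgne
  have hgV : Van (a * ∑ l ∈ A, jj l) g := (Van.prod A jj s fun l hl => (hs l hl).2.2.2).pow a
  have hsupp1 : ∀ l ∈ A, Supp C 1 (s l) := by
    intro l hl m hm
    rw [Nat.cast_one, one_smul]
    exact hA m ((hs l hl).2.1 hm)
  have hgS : Supp C (a * A.card) g := (Supp.prod hC hC' A s hsupp1).pow hC hC' a
  have hfold : fold q (cls q (a • ∑ l ∈ A, l)) g = coeff (a • ∑ l ∈ A, l) g := by
    refine fold_apply q _ g _ rfl fun m hm hcl => ?_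
    exact huniq m (hgS m hm) hcl
  have hnot : ¬ (d * (q - 1) + 1 ≤ a * ∑ l ∈ A, jj l) := by
    intro hle
    apply hgc
    rw [← hfold]
    exact fold_eq_zero (p := p) e q hq _ g (hgV.mono hle)
  push Not at hnot
  calc a * (J * A.card) ≤ a * (∑ l ∈ A, jj l + (J + d).choose (d + 1)) :=
        Nat.mul_le_mul_left _ hJ
    _ = a * ∑ l ∈ A, jj l + a * (J + d).choose (d + 1) := by ring
    _ ≤ _ := by omega

end Pool.Agent.H912R3.Ehr
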