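import Pool.Agent.H912R3.Ehr.Disc

/-!
# Ehrhart's volume conjecture: the limits
-/

set_option autoImplicit false

open scoped Pointwise Topology
open Set MeasureTheory Filter Module

namespace Pool.Agent.H912R3.Ehr

variable {d : ℕ}

/-- first limit `q → ∞` -/
theorem lim1 (hd : 1 ≤ d) {K : Set (Fin d → ℝ)} (hKc : Convex ℝ K)
    (hL : ∀ z : Fin d → ℤ, (fun i => (z i : ℝ)) ∈ interior K → z = 0)
    {k B : ℕ} (hk : 1 ≤ k) (hB : ∀ x ∈ K, ∀ i, |x i| ≤ B) {ε δ : ℝ} (hε : 0 < ε) (hε1 : ε < 1)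
    (hδ : 0 < δ) (hball : Metric.ball (0 : Fin d → ℝ) δ ⊆ K)
    (A : Finset (Fin d →₀ ℕ)) (hAdef : A = AA K k B hk hB) (hA0 : 0 < A.card)
    (hc : ‖((A.card : ℝ)⁻¹) • ∑ m ∈ A, pt k B m‖ < ε * δ) (J : ℕ) :
    (1 - ε) * ((J : ℝ) * A.card - ((J + d).choose (d + 1) : ℕ)) ≤ d * (k * A.card) := by
  set N : ℝ := (A.card : ℝ) with hN
  set X : ℝ := (J : ℝ) * N - ((J + d).choose (d + 1) : ℕ) with hX
  have hk' : (0 : ℝ) < k := by positivity
  have hN' : (0 : ℝ) < N := by rw [hN]; exact_mod_cast hA0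
  rcases le_or_gt X 0 with hX0 | hX0
  · have h1 : (1 - ε) * X ≤ 0 := mul_nonpos_of_nonneg_of_nonpos (by linarith) hX0
    exact h1.trans (by positivity)
  by_contra hcon
  push Not at hcon
  set κ : ℝ := (1 - ε) * X / (k * N) - d with hκ
  have hκ0 : 0 < κ := by
    rw [hκ, sub_pos, lt_div_iff₀ (by positivity)]
    exact hcon
  have hall : ∀ e : ℕ, (2 : ℝ) ^ e * κ ≤ X := by
    intro e
    set a : ℕ := ⌊(1 - ε) * (2 : ℝ) ^ e / (k * N)⌋₊ with ha
    have hnn : 0 ≤ (1 - ε) * (2 : ℝ) ^ e / (k * N) := by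
      have : 0 ≤ 1 - ε := by linarith
      positivity
    have ha1 : (a : ℝ) ≤ (1 - ε) * (2 : ℝ) ^ e / (k * N) := Nat.floor_le hnn
    have ha2 : (1 - ε) * (2 : ℝ) ^ e / (k * N) - 1 < a := by
      have := Nat.lt_floor_add_one ((1 - ε) * (2 : ℝ) ^ e / (k * N))
      linarith
    have h1 := disc hd hKc hL hk hB hε hε1 hδ hball A hAdef hA0 hc e (2 ^ e) a J rfl (by
      rw [le_div_iff₀ (by positivity)] at ha1
      push_cast
      rw [← hN]
      linarith [mul_comm (k : ℝ) N])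
    have h2 : (a : ℝ) * X ≤ d * (2 : ℝ) ^ e := by
      have h3 : ((a * (J * A.card) : ℕ) : ℝ) ≤
          ((a * (J + d).choose (d + 1) + d * (2 ^ e - 1) : ℕ) : ℝ) := by exact_mod_cast h1
      have h4 : ((d * (2 ^ e - 1) : ℕ) : ℝ) ≤ d * (2 : ℝ) ^ e := by
        have : d * (2 ^ e - 1) ≤ d * 2 ^ e := Nat.mul_le_mul_left _ (Nat.sub_le _ _)
        exact_mod_cast this
      push_cast at h3 h4
      rw [hX, hN]
      linarith
    have h5 : ((1 - ε) * (2 : ℝ) ^ e / (k * N) - 1) * X ≤ d * (2 : ℝ) ^ e :=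
      (mul_le_mul_of_nonneg_right ha2.le hX0.le).trans h2
    have h6 : (2 : ℝ) ^ e * κ = (1 - ε) * (2 : ℝ) ^ e / (k * N) * X - d * (2 : ℝ) ^ e := by
      rw [hκ]; ring
    rw [h6]
    linarith
  obtain ⟨e, he⟩ := pow_unbounded_of_one_lt (X / κ) (one_lt_two : (1 : ℝ) < 2)
  rw [div_lt_iff₀ hκ0] at he
  exact absurd (hall e) (not_le.2 he)

/-- the points of `(1/k) ℤᵈ` in `K` -/
theorem grid_eq {K : Set (Fin d → ℝ)} {k B : ℕ} (hk : 1 ≤ k) (hB : ∀ x ∈ K, ∀ i, |x i| ≤ B)
    (A : Finset (Fin d →₀ ℕ)) (hAdef : A = AA K k B hk hB) [DecidableEq (Fin d → ℝ)] :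
    (K ∩ (k : ℝ)⁻¹ • (Submodule.span ℤ (Set.range (Pi.basisFun ℝ (Fin d))) : Set (Fin d → ℝ))) =
      ((A.image (pt k B) : Finset (Fin d → ℝ)) : Set (Fin d → ℝ)) := by
  have hk' : (0 : ℝ) < k := by positivity
  have hmem : ∀ y : Fin d → ℝ, y ∈ (Submodule.span ℤ (Set.range (Pi.basisFun ℝ (Fin d))) :
      Set (Fin d → ℝ)) ↔ ∀ i, ∃ z : ℤ, (z : ℝ) = y i := by
    intro y
    rw [SetLike.mem_coe, (Pi.basisFun ℝ (Fin d)).mem_span_iff_repr_mem ℤ]
    simp
  ext x
  rw [Finset.coe_image, Set.mem_image, Set.mem_inter_iff, Set.mem_inv_smul_set_iff₀ hk'.ne', hmem]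
  constructor
  · rintro ⟨hx, h⟩
    choose z hz using h
    have hpos : ∀ i, 0 ≤ z i + k * B := by
      intro i
      have h1 := (abs_le.1 (hB x hx i)).1
      have h2 : (z i : ℝ) = k * x i := hz i
      have h3 : (0 : ℝ) ≤ z i + k * B := by
        rw [h2]
        nlinarith
      exact_mod_cast h3
    have hn : ∀ i, ∃ n : ℕ, z i + k * B = (n : ℤ) := fun i => Int.eq_ofNat_of_zero_le (hpos i)
    choose n hn using hn
    have hpt : pt k B (Finsupp.equivFunOnFinite.symm n) = x := by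
      funext i
      have h4 : (n i : ℝ) = k * x i + k * B := by
        have h5 : ((n i : ℤ) : ℝ) = ((z i + k * B : ℤ) : ℝ) := by rw [hn i]
        push_cast at h5
        rw [h5, hz i]
        rfl
      show (k : ℝ)⁻¹ * (n i : ℝ) - B = x i
      rw [h4]
      field_simp
      ring
    refine ⟨Finsupp.equivFunOnFinite.symm n, ?_, hpt⟩
    rw [hAdef, Finset.mem_coe, mem_AA, hpt]
    exact hx
  · rintro ⟨m, hm, rfl⟩
    rw [hAdef, Finset.mem_coe, mem_AA] at hm
    refine ⟨hm, fun i => ⟨(m i : ℤ) - k * B, ?_⟩⟩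
    simp only [pt, Pi.smul_apply, Pi.sub_apply, smul_eq_mul, toR]
    push_cast
    field_simp

/-- the limits of the number and of the sum of the grid points -/
theorem lims {K : Set (Fin d → ℝ)} (hK : IsCompact K) (hKc : Convex ℝ K) {B : ℕ}
    (hB : ∀ x ∈ K, ∀ i, |x i| ≤ B) (A : ℕ → Finset (Fin d →₀ ℕ))
    (hA : ∀ k (hk : 1 ≤ k), A k = AA K k B hk hB) :
    Tendsto (fun k : ℕ => ((A k).card : ℝ) / k ^ d) atTop (𝓝 (volume.real K)) ∧
    ∀ i, Tendsto (fun k : ℕ => (∑ m ∈ A k, pt k B m i) / k ^ d) atTop (𝓝 (∫ x in K, x i)) := by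
  classical
  have hb : Bornology.IsBounded K := hK.isBounded
  have hm : MeasurableSet K := hK.measurableSet
  have hf : volume (frontier K) = 0 := hKc.addHaar_frontier volume
  constructor
  · have h1 := tendsto_card_div_pow_atTop_volume K hb hm hf
    rw [Fintype.card_fin] at h1
    refine h1.congr' ?_
    filter_upwards [eventually_ge_atTop 1] with k hk
    rw [grid_eq hk hB (A k) (hA k hk), Nat.card_coe_set_eq, Set.ncard_coe_finset,
      Finset.card_image_of_injective _ (pt_injective hk B)]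
  · intro i
    have h1 := tendsto_tsum_div_pow_atTop_integral K (fun x => x i) (continuous_apply i) hb hm hf
    rw [Fintype.card_fin] at h1
    refine h1.congr' ?_
    filter_upwards [eventually_ge_atTop 1] with k hk
    rw [grid_eq hk hB (A k) (hA k hk)]
    rw [Finset.tsum_subtype' (A k |>.image (pt k B)) (fun x : Fin d → ℝ => x i),
      Finset.sum_image fun x _ y _ h => pt_injective hk B h]

/-- **Ehrhart's volume bound for `ℤᵈ`.** -/
theorem ehrhart_int (hd : 1 ≤ d) {K : Set (Fin d → ℝ)} (hK : IsCompact K) (hKc : Convex ℝ K)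
    (hz : ∀ i, ∫ x in K, x i = 0)
    (h0 : (0 : Fin d → ℝ) ∈ interior K)
    (hL : ∀ z : Fin d → ℤ, (fun i => (z i : ℝ)) ∈ interior K → z = 0) :
    volume.real K ≤ ((d : ℝ) + 1) ^ d / d.factorial := by
  classical
  obtain ⟨δ, hδ, hball⟩ := Metric.mem_nhds_iff.1 (mem_interior_iff_mem_nhds.1 h0)
  -- a bound for the coordinates
  obtain ⟨R, hR⟩ := hK.isBounded.subset_closedBall (0 : Fin d → ℝ)
  obtain ⟨B, hB0⟩ := exists_nat_ge R
  have hB : ∀ x ∈ K, ∀ i, |x i| ≤ B := by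
    intro x hx i
    have h1 := hR hx
    rw [mem_closedBall_zero_iff] at h1
    exact ((norm_le_pi_norm x i).trans h1).trans hB0
  let A : ℕ → Finset (Fin d →₀ ℕ) := fun k => if hk : 1 ≤ k then AA K k B hk hB else ∅
  have hA : ∀ k (hk : 1 ≤ k), A k = AA K k B hk hB := fun k hk => dif_pos hk
  obtain ⟨hcard, hsum⟩ := lims hK hKc hB A hA
  set V : ℝ := volume.real K with hV
  have hV0 : 0 < V := by
    have h1 : 0 < volume K := by
      have : 0 < volume (interior K) := isOpen_interior.measure_pos volume ⟨0, h0⟩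
      exact this.trans_le (measure_mono interior_subset)
    exact ENNReal.toReal_pos h1.ne' hK.measure_lt_top.ne
  -- the barycentres tend to zero
  have hbar : Tendsto (fun k : ℕ => (((A k).card : ℝ)⁻¹) • ∑ m ∈ A k, pt k B m) atTop
      (𝓝 (0 : Fin d → ℝ)) := by
    rw [tendsto_pi_nhds]
    intro i
    have h1 := (hsum i).div hcard hV0.ne'
    rw [hz i, zero_div] at h1
    refine h1.congr' ?_
    filter_upwards [eventually_ge_atTop 1] with k hk
    have hk' : (0 : ℝ) < (k : ℝ) ^ d := by positivity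
    rw [Pi.smul_apply, Finset.sum_apply, smul_eq_mul, Pi.div_apply]
    rcases Nat.eq_zero_or_pos (A k).card with h | h
    · rw [Finset.card_eq_zero] at h
      simp [h]
    · have : (0 : ℝ) < (A k).card := by exact_mod_cast h
      field_simp
  -- the inequality for each `ε`
  have hε : ∀ ε : ℝ, 0 < ε → ε < 1 →
      (1 - ε) * (((d : ℝ) + 1) * V - ((d : ℝ) + 1) ^ (d + 1) / (d + 1).factorial) ≤ d * V := by
    intro ε hε hε1
    have hev : ∀ᶠ k : ℕ in atTop,
        (1 - ε) * (((d : ℝ) + 1) * (((A k).card : ℝ) / k ^ d) -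
          (((d : ℝ) + 1) + (d : ℝ) / k) ^ (d + 1) / (d + 1).factorial) ≤
          d * (((A k).card : ℝ) / k ^ d) := by
      have h1 : ∀ᶠ k : ℕ in atTop, ‖(((A k).card : ℝ)⁻¹) • ∑ m ∈ A k, pt k B m‖ < ε * δ := by
        have := hbar.norm
        rw [norm_zero] at this
        exact this.eventually (gt_mem_nhds (by positivity))
      have h2 : ∀ᶠ k : ℕ in atTop, 0 < ((A k).card : ℝ) / k ^ d := hcard.eventually (lt_mem_nhds hV0)
      filter_upwards [h1, h2, eventually_ge_atTop 1] with k hc hpos hk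
      have hk' : (0 : ℝ) < k := by positivity
      have hkd : (0 : ℝ) < (k : ℝ) ^ d := by positivity
      have hA0 : 0 < (A k).card := by
        rcases Nat.eq_zero_or_pos (A k).card with h | h
        · rw [h] at hpos; simp at hpos
        · exact h
      have h3 := lim1 hd hKc hL hk hB hε hε1 hδ hball (A k) (hA k hk) hA0 hc ((d + 1) * k)
      have h4 : ((((d + 1) * k + d).choose (d + 1) : ℕ) : ℝ) ≤
          ((((d + 1) * k + d : ℕ) : ℝ)) ^ (d + 1) / (d + 1).factorial :=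
        Nat.choose_le_pow_div (d + 1) ((d + 1) * k + d)
      have h5 : ((((d + 1) * k + d : ℕ) : ℝ)) ^ (d + 1) =
          (((d : ℝ) + 1) + (d : ℝ) / k) ^ (d + 1) * (k : ℝ) ^ (d + 1) := by
        rw [← mul_pow]
        congr 1
        push_cast
        field_simp
      have h6 : (1 - ε) * (((d : ℝ) + 1) * k * (A k).card -
          (((d : ℝ) + 1) + (d : ℝ) / k) ^ (d + 1) * (k : ℝ) ^ (d + 1) / (d + 1).factorial) ≤
          d * (k * (A k).card) := by
        have h7 : (1 - ε) * (((d : ℝ) + 1) * k * (A k).card -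
          (((d : ℝ) + 1) + (d : ℝ) / k) ^ (d + 1) * (k : ℝ) ^ (d + 1) / (d + 1).factorial) ≤
          (1 - ε) * ((((d + 1) * k : ℕ) : ℝ) * (A k).card -
            ((((d + 1) * k + d).choose (d + 1) : ℕ) : ℝ)) := by
          apply mul_le_mul_of_nonneg_left _ (by linarith)
          rw [h5] at h4
          push_cast at h4 ⊢
          linarith
        exact h7.trans h3
      have hkk : (0 : ℝ) < (k : ℝ) ^ (d + 1) := by positivity
      have e1 : (1 - ε) * (((d : ℝ) + 1) * (((A k).card : ℝ) / k ^ d) -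
          (((d : ℝ) + 1) + (d : ℝ) / k) ^ (d + 1) / (d + 1).factorial) * (k : ℝ) ^ (d + 1) =
          (1 - ε) * (((d : ℝ) + 1) * k * (A k).card -
          (((d : ℝ) + 1) + (d : ℝ) / k) ^ (d + 1) * (k : ℝ) ^ (d + 1) / (d + 1).factorial) := by
        rw [pow_succ (k : ℝ) d]
        field_simp
      have e2 : d * (((A k).card : ℝ) / k ^ d) * (k : ℝ) ^ (d + 1) = d * (k * (A k).card) := by
        rw [pow_succ (k : ℝ) d]
        field_simp
      refine le_of_mul_le_mul_right ?_ hkk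
      rw [e1, e2]
      exact h6
    have hl1 : Tendsto (fun k : ℕ => (1 - ε) * (((d : ℝ) + 1) * (((A k).card : ℝ) / k ^ d) -
          (((d : ℝ) + 1) + (d : ℝ) / k) ^ (d + 1) / (d + 1).factorial)) atTop
        (𝓝 ((1 - ε) * (((d : ℝ) + 1) * V - (((d : ℝ) + 1) + 0) ^ (d + 1) / (d + 1).factorial))) := by
      refine Tendsto.const_mul _ ((hcard.const_mul _).sub (Tendsto.div_const ?_ _))
      exact ((tendsto_const_nhds).add (tendsto_const_div_atTop_nhds_zero_nat (d : ℝ))).pow _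
    have hl2 : Tendsto (fun k : ℕ => (d : ℝ) * (((A k).card : ℝ) / k ^ d)) atTop (𝓝 (d * V)) :=
      hcard.const_mul _
    have := le_of_tendsto_of_tendsto hl1 hl2 hev
    rwa [add_zero] at this
  -- `ε → 0`
  have hlim : Tendsto (fun ε : ℝ => (1 - ε) * (((d : ℝ) + 1) * V -
      ((d : ℝ) + 1) ^ (d + 1) / (d + 1).factorial)) (𝓝[>] 0)
      (𝓝 ((1 - 0) * (((d : ℝ) + 1) * V - ((d : ℝ) + 1) ^ (d + 1) / (d + 1).factorial))) := by
    refine Tendsto.mono_left ?_ nhdsWithin_le_nhds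
    exact (tendsto_const_nhds.sub tendsto_id).mul_const _
  have hfin : (1 - 0) * (((d : ℝ) + 1) * V - ((d : ℝ) + 1) ^ (d + 1) / (d + 1).factorial) ≤ d * V := by
    refine le_of_tendsto hlim ?_
    filter_upwards [Ioo_mem_nhdsGT (zero_lt_one : (0 : ℝ) < 1)] with ε h
    exact hε ε h.1 h.2
  have hfac : ((d + 1).factorial : ℝ) = ((d : ℝ) + 1) * d.factorial := by
    rw [Nat.factorial_succ]; push_cast; ring
  have hdf : (0 : ℝ) < d.factorial := by positivity
  have hpow : ((d : ℝ) + 1) ^ (d + 1) / (d + 1).factorial = ((d : ℝ) + 1) ^ d / d.factorial := by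
    rw [hfac, pow_succ]
    field_simp
  rw [hpow] at hfin
  linarith

end Pool.Agent.H912R3.Ehr
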